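import Pool.Agent.V11280.H2.Places
import Pool.Agent.V11280.H2.Alt

/-!
# The Mumford-Tate conjecture for the second cohomology of abelian varieties with places of
# different kinds

Let `A` be an abelian variety over a finitely generated field of complex numbers, `W = H_1(A, ℚ)`
with the polarization form `ω₀`, `T` the tangent space at the origin and `per : W → T` the inclusion;
`V = ℚ_ℓ ⊗ W` is the rational Tate module, with the action `ρ` of the Galois group `Γ` and the
cyclotomic character `χ`.  The second cohomology group `H^2(A)` is the space of the alternating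
bilinear forms on `V` (on `W` for the rational structure), and `(H^2(A)(1)) ^ {⊗ m}` is the space of
the multilinear forms in `2 m` variables, indexed by `Fin m × Fin 2`, which are alternating in each of
the `m` pairs of variables (`IsH2Tensor`).

The Mumford-Tate conjecture for the second cohomology (`MumfordTateH2`), in terms of tensors: all Tate
classes in all tensor powers `(H^2(A)(1)) ^ {⊗ m}` are `ℚ_ℓ`-linear combinations of Hodge classes in the
tensor powers `(H^2(A, ℚ)(1)) ^ {⊗ m}`.  (The representation `H^2(A)(1)` is self-dual, the Mumford-Tate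
group is reductive and, by Faltings, so is the identity component of the closure of the image of Galois;
as reductive groups are determined by their tensor invariants this is the equality of the two groups
over `ℚ_ℓ`, and the equality of their Zariski closures over `ℤ_ℓ`.)

Hypotheses.

* `hss`, `hF`: the theorems of Faltings (semisimplicity; the endomorphisms of `V` which commute with
  an open subgroup of the Galois group are combinations of endomorphisms of `A`).
* `hplaces`: the Tate module `X` over the algebraic closure `K` of `ℚ_ℓ` is the sum of strongly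
  irreducible subspaces `E i`; each `E i` is a line which is not self-dual, or it has a place of bad
  semistable reduction or places of good reduction as in `HasBadPlace`, `HasGoodPlaces` (and, if it is
  not self-dual, the `E j` which are twists of `E i` are isomorphic to it), or there is an element of
  finite order (a generator of tame inertia at a place of potentially good reduction) with isolated
  ratios of eigenvalues on `E i` (`HasFinitePlace`).

Theorem.  The Mumford-Tate conjecture for the second cohomology holds for `A` (`CentreTheorem` is the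
theorem that the conjecture holds for the centres of the groups; Vasiu, Ullmo-Yafaev); without the
theorem on the centres, if there are no Weil families (families of strongly irreducible subspaces,
never dual to each other, such that the product of the determinants is a power of the cyclotomic
character), for instance if no `E i` is isotropic (types I, II).

Example.  `A` is the Jacobian of a curve of genus `g`, `End(A) = ℤ` over the algebraic closure, and the
curve has at ONE place `v` a reduction with just one singular point, of type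
`y ^ 2 = x ^ (2 k + 1) + t`, with any `k < g`, `v(t)` prime to `2 (2 k + 1)` and `v` prime to
`2 (2 k + 1) ℓ`; or products of such Jacobians with abelian varieties with places of the other kinds.
-/

set_option autoImplicit false

namespace Pool.Agent.Results.MP_6369ef_ag.AbelianVarietiesH2

open Module TensorProduct Pool.Agent.Y126.Notions Pool.Agent.V11280.H2
open Pool.Agent.H204R3.SP Pool.Agent.H204R3.GP Pool.Agent.W522.U
open Pool.Agent.TH118.MT Pool.Agent.Y144.MT

/-- The multilinear form `φ` in `2 m` variables is alternating in each of the `m` pairs of variables: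
it is an element of the `m`-th tensor power of the space of alternating bilinear forms. -/
def IsH2Tensor {k V : Type} [Field k] [AddCommGroup V] [Module k V] {m : ℕ}
    (φ : MultilinearMap k (fun _ : Fin m × Fin 2 => V) k) : Prop :=
  ∀ (i : Fin m) (v : Fin m × Fin 2 → V), v (i, 0) = v (i, 1) → φ v = 0

/-- The Mumford-Tate conjecture for the second cohomology group of `A`: all Tate classes in the
tensor powers of `H^2(A)(1)` are linear combinations of Hodge classes in the tensor powers of
`H^2(A, ℚ)(1)`. -/
def MumfordTateH2 {k V Γ W T : Type} [Field k] [CharZero k] [AddCommGroup V] [Module k V] [Group Γ]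
    [AddCommGroup W] [Module ℚ W] [AddCommGroup T] [Module ℂ T] (per : W →+ T) (comp : W →+ V)
    (ρ : Representation k Γ V) (χ : Γ →* k) : Prop :=
  ∀ (m : ℕ) (φ : MultilinearMap k (fun _ : Fin m × Fin 2 => V) k), IsH2Tensor φ →
    IsTateTensor ρ χ m φ →
    φ ∈ Submodule.span k {φ' : MultilinearMap k (fun _ : Fin m × Fin 2 => V) k | IsH2Tensor φ' ∧
      ∃ ψ : MultilinearMap ℚ (fun _ : Fin m × Fin 2 => W) ℚ,
        IsHodgeTensor per ψ ∧ IsH2Tensor ψ ∧ Compares comp φ' ψ}

lemma h2_of {k V Γ W T : Type} [Field k] [CharZero k] [AddCommGroup V] [Module k V] [Group Γ]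
    [AddCommGroup W] [Module ℚ W] [AddCommGroup T] [Module ℂ T] {per : W →+ T} {comp : W →+ V}
    {ρ : Representation k Γ V} {χ : Γ →* k} (h : MumfordTate per comp ρ χ) :
    MumfordTateH2 per comp ρ χ := by
  intro m φ h1 h2
  refine Submodule.span_mono ?_ (mem_of_alt (h m φ h2) Finset.univ fun i _ => h1 i)
  rintro φ' ⟨g1, ψ, g2, g3, g4⟩
  exact ⟨fun i => g1 i (Finset.mem_univ i), ψ, g2, fun i => g3 i (Finset.mem_univ i), g4⟩

lemma of_strong {k V Γ W T : Type} [Field k] [CharZero k] [AddCommGroup V] [Module k V] [Group Γ]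
    [AddCommGroup W] [Module ℚ W] [AddCommGroup T] [Module ℂ T] {per : W →+ T} {comp : W →+ V}
    {ρ : Representation k Γ V} {χ : Γ →* k} (h : MumfordTateStrong per comp ρ χ) :
    MumfordTate per comp ρ χ := by
  intro m φ h1
  refine Submodule.span_mono ?_ (h m φ h1)
  rintro φ' ⟨ψ, g1, -, g2⟩
  exact ⟨ψ, g1, g2⟩

theorem result (ℓ : ℕ) [Fact ℓ.Prime]
    -- the complex abelian variety `A` with a polarization
    {W T : Type} [AddCommGroup W] [Module ℚ W] [FiniteDimensional ℚ W] [AddCommGroup T] [Module ℂ T]
    (per : W →+ T) (ω₀ : W →ₗ[ℚ] W →ₗ[ℚ] ℚ) (halt : ∀ v, ω₀ v v = 0)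
    (hnondeg : ∀ u, (∀ v, ω₀ v u = 0) → u = 0) (hω₀ : IsHodgeBilinear per ω₀)
    -- the action of the Galois group on the Tate module
    {Γ : Type} [Group Γ] (ρ : Representation ℚ_[ℓ] Γ (ℚ_[ℓ] ⊗[ℚ] W)) (χ : Γ →* ℚ_[ℓ])
    (hω : ∀ s u v, bcb ℚ_[ℓ] ω₀ (ρ s u) (ρ s v) = χ s * bcb ℚ_[ℓ] ω₀ u v)
    -- the theorems of Faltings
    (hss : FiniteIndexSemisimple ρ) (hF : FaltingsEnd per (incl ℚ_[ℓ] W) ρ)
    -- the decomposition and the places
    {I : Type} (E : I → Submodule (AlgebraicClosure ℚ_[ℓ])
      (AlgebraicClosure ℚ_[ℓ] ⊗[ℚ_[ℓ]] (ℚ_[ℓ] ⊗[ℚ] W)))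
    (hE : ∀ i, StronglyIrreducible (bcr ρ (AlgebraicClosure ℚ_[ℓ])) (E i))
    (hsum : ⨆ i, E i = ⊤)
    (hplaces : HasPlaces (bcr ρ (AlgebraicClosure ℚ_[ℓ])) (bcc χ (AlgebraicClosure ℚ_[ℓ]))
      (bcb (AlgebraicClosure ℚ_[ℓ]) (bcb ℚ_[ℓ] ω₀)) E) :
    (CentreTheorem per (Pool.Agent.TH118.MT.extend (k := ℚ_[ℓ]) (AlgebraicClosure ℚ_[ℓ])
        (incl ℚ_[ℓ] W)) (bcr ρ (AlgebraicClosure ℚ_[ℓ])) (bcc χ (AlgebraicClosure ℚ_[ℓ])) →
      MumfordTateH2 per (incl ℚ_[ℓ] W) ρ χ) ∧
    ((∀ (Q : Type) [Fintype Q] [Nonempty Q]
      (L : Q → Submodule (AlgebraicClosure ℚ_[ℓ])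
        (AlgebraicClosure ℚ_[ℓ] ⊗[ℚ_[ℓ]] (ℚ_[ℓ] ⊗[ℚ] W))),
      ¬Pool.Agent.Y126.Notions.IsWeilFamily (bcr ρ (AlgebraicClosure ℚ_[ℓ]))
        (bcc χ (AlgebraicClosure ℚ_[ℓ])) L) →
      MumfordTateH2 per (incl ℚ_[ℓ] W) ρ χ) ∧
    ((∀ i, IsNotIsotropic (bcb (AlgebraicClosure ℚ_[ℓ]) (bcb ℚ_[ℓ] ω₀)) (E i)) →
      MumfordTateH2 per (incl ℚ_[ℓ] W) ρ χ) := by
  obtain ⟨h1, h2, h3⟩ := mumfordTate_places ℓ per ω₀ halt hnondeg hω₀ ρ χ hω hss hF E hE hsum hplaces
  exact ⟨fun h => h2_of (h1 h), fun h => h2_of (of_strong (h2 h)), fun h => h2_of (of_strong (h3 h))⟩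

end Pool.Agent.Results.MP_6369ef_ag.AbelianVarietiesH2
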