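import Pool.Agent.V11219.TowFac

/-!
# The Mumford–Tate conjecture for varieties dominated by products of semistable curves

Let `W` be a Weil cohomology theory with algebraically closed coefficients (`ℓ`-adic cohomology with
coefficients in the algebraic closure of `ℚ_ℓ`) on a class of smooth projective varieties, and let `Γ` be a
group which acts on the cohomology of the varieties `X_i`, `Y_b` and `Z` with the formal properties of the
Galois group of a finitely generated field `k` of characteristic zero (`χ` is the action on the Tate
twists). Let `C` be a system of classes (`ClassSystem`): for every variety `A` a space `C(A)` of cohomology
classes containing the classes of algebraic cycles and stable under products, pull-backs and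
push-forwards. In this problem `C(A)` is the space spanned by the Hodge classes (for an embedding of
`k` in `ℂ` and the comparison isomorphism). `TateIn χ C A` is the statement that all classes of `A` on
which a subgroup of finite index of `Γ` acts by a power of `χ` are in `C(A)`: all Tate classes are
combinations of Hodge classes.

All varieties `X_i` (`i` in a finite set) and `Y_b` (`b` in a finite set) have odd dimension, numerical
and homological equivalence coincide for them (for example curves, hypersurfaces, complete
intersections), and their transcendental cohomology `T(X_i)`, `T(Y_b)` (the orthogonal complement of the
algebraic classes) is concentrated in the middle degree; the `Y_b` have the same dimension, the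
`T(X_i)` are irreducible under all subgroups of finite index and no two of them are isomorphic up to
scalars. **Nothing else is assumed on the `Y_b`**: they may be arbitrary curves, for instance with
arbitrary endomorphisms of the Jacobians. Nothing at all is assumed on `Z`.

Let `N` be the set of the `g ∈ Γ` with `χ(g) = 1` which act trivially on the cohomology of `Z` and with
`(g - 1) ^ 2 = 0` on all `T(X_j)` and all `T(Y_b)` (inertia at the places `v` at which `Z` has good
reduction and the `X_j`, `Y_b` are curves with stable reduction, or hypersurfaces of odd dimension whose
reduction has ordinary double points; **all** of them may have bad reduction at `v`). Assume for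
every `i`:

* **(small defects)** some `g ∈ N` has defects on `T(X_i)` without a common prime factor, or the defect
  two; here the defects of `g` are the rank of `g - 1` on `T(X_i)` and the multiplicities of the nonzero
  eigenvalues of `(g - 1) (g' - 1)` on `T(X_i)`, for `g' ∈ N`. (Or: the conjugates of some `g ∈ N` act
  irreducibly on `T(X_i)` and the defects of all elements of `N` have no common prime factor.)
* **(larger rank)** for some `g ∈ N` the rank of `g - 1` on `T(X_i)` is larger than the sum of the
  ranks of `g - 1` on the `T(Y_b)`.

Let `Z₁` be a product of `Z` with arbitrary powers of the `Y_b`, and `T` a product of `Z₁` with arbitrary
powers of the `X_i`. Then the following are **equivalent**: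

1. for **all** varieties `B` dominated by `T` (there is a morphism `g` from `T` to `B`, compatible with
   the actions, and a combination of algebraic classes with direct image `1` under `g`), all
   potentially semi-invariant classes of `B` are in `C(B)`, and for **all** representations `M` of `Γ`
   with an equivariant map `s` to the cohomology of `B` of even degree and a map `f` with `f ∘ s = 1`
   (direct factors) the elements of `M` which are invariant under a subgroup of finite index are in
   `f(C(B))`;
2. all potentially semi-invariant classes of `Z₁` are in `C(Z₁)`.

For the Mumford-Tate conjecture: let `V` be a variety such that its powers are dominated by products `T`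
of this kind (quotients and images of products of the curves `X_i`, `Y_b` and of `Z`: surfaces which are
quotients of products of curves, abelian varieties which are quotients of products of Jacobians).
Put `M = H²(V)(1)^{⊗ m}`, a direct factor of the cohomology of `B = V^m` (twisted), with `f` the Künneth
projector, which preserves the span of the Hodge classes. By 1. all tensors in `M` which are invariant under
a subgroup of finite index of `Γ` are combinations of Hodge classes of `M`, if 2. is true, i.e. they are
invariant under the Mumford-Tate group. As `M` is isomorphic to its dual, and the identity
component of `G_ℓ` is reductive (Faltings and Poincaré reducibility for motives of abelian type), this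
is the inclusion of the Mumford-Tate group in the identity component of `G_ℓ`; the other inclusion
is known for motives of this type (Deligne). So for these `V` the conjecture is reduced to the
`Y_b` and `Z`, about which nothing is assumed.

Proof. By the theory of extremal elements of Lie algebras, Goursat's lemma and the comparison of ranks
(see `MP_3703a7_ag.SemistableProducts`) and by the first fundamental theorem a potentially semi-invariant
class on the product of a power of `X_i` with `A` is a combination of products of algebraic classes of the
power with potentially semi-invariant classes of `A`. If `x` is a potentially semi-invariant class of
`B`, then so is `g^* x`, hence `g^* x` belongs to `C(T)`, and `x = g_*(a g^* x)` for an algebraic class `a`.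
If `m` is an invariant element of a direct factor `M` of the cohomology of `B`, then `s(m)` is
potentially semi-invariant, so it belongs to `C(B)`, and `m = f(s(m))`.
-/

universe u

namespace Pool.Agent.Results.MP_6369ef_ag.SemistableProducts

open Pool.Agent.H914 Pool.Agent.H281R3.HT Pool.Agent.TH125.Gal Pool.Agent.V11219.Min
  Pool.Agent.V11219.Cls Pool.Agent.V11219.Dm

/-- **The Mumford-Tate conjecture for varieties dominated by products: comparison of ranks.** -/
theorem result {k : Type u} [Field k] {𝒱 : VarClass k} {ops : CycleOps 𝒱}
    (W : WeilCohomology.{u, 0} ops) [IsAlgClosed W.K] {Γ : Type} [Group Γ] (χ : CharOf W Γ)
    (C : Classes W) (hC : ClassSystem W C)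
    {ι β : Type} [Finite ι] [Fintype β] (X : ι → GVar W Γ) (Y : β → GVar W Γ) (d : ℕ)
    (Z : GVar W Γ) (h : FamilyOver χ X Y d Z) (S' : Set β) (Z₁ : GVar W Γ)
    (hZ : Tow Y Z S' Z₁) (S : Set ι) (T : GVar W Γ) (hT : Tow X Z₁ S T) :
    (∀ B, Dominates T B → TateIn χ C B ∧ FactorsTate χ C B) ↔ TateIn χ C Z₁ :=
  all_factors_over hC h hZ hT

end Pool.Agent.Results.MP_6369ef_ag.SemistableProducts
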